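import Pool.Agent.Run7.h968.TN.Defs5

/-!
# Project TN (helper968), piece low5: four pieces give a free subgroup (ping-pong)
-/

set_option autoImplicit false

open scoped Pointwise

namespace Pool.Agent.Run7.h305.TN

open Pool.Agent.Run7.h968.TN

/-- one half of a paradoxical decomposition has at least two pieces -/
theorem two_le {G : Type} [Group G] {k : ℕ} (P : Fin k → Set G) (t : Fin k → G)
    (T : Finset (Fin k)) (hdis : ∀ x i j, x ∈ P i → x ∈ P j → i = j)
    (h1 : ∀ x : G, ∃ i, i ∈ T ∧ (t i)⁻¹ * x ∈ P i)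
    (h2 : ∀ x : G, ∃ i, i ∉ T ∧ (t i)⁻¹ * x ∈ P i) : 2 ≤ T.card := by
  by_contra hcon
  have h3 : T.card ≤ 1 := by omega
  rw [Finset.card_le_one] at h3
  obtain ⟨a, ha, -⟩ := h1 1
  obtain ⟨j, hj, hj'⟩ := h2 1
  obtain ⟨i, hi, hi'⟩ := h1 (t a * ((t j)⁻¹ * 1))
  have h4 : i = a := h3 i hi a ha
  rw [h4, inv_mul_cancel_left] at hi'
  exact hj ((hdis _ _ _ hj' hi').symm ▸ ha)

/-- the two translations of one half -/
theorem half {G : Type} [Group G] {k : ℕ} (P : Fin k → Set G) (t : Fin k → G)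
    (a b : Fin k) (h1 : ∀ x : G, ∃ i, (i = a ∨ i = b) ∧ (t i)⁻¹ * x ∈ P i) :
    (∀ x, x ∉ P b → ((t a)⁻¹ * t b) * x ∈ P a) ∧ (∀ x, x ∉ P a → ((t a)⁻¹ * t b)⁻¹ * x ∈ P b) := by
  constructor
  · intro x hx
    obtain ⟨i, hi, hi'⟩ := h1 (t b * x)
    rcases hi with hi | hi
    · rw [hi, ← mul_assoc] at hi'
      exact hi'
    · rw [hi, inv_mul_cancel_left] at hi'
      exact absurd hi' hx
  · intro x hx
    obtain ⟨i, hi, hi'⟩ := h1 (t a * x)
    rcases hi with hi | hi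
    · rw [hi, inv_mul_cancel_left] at hi'
      exact absurd hi' hx
    · rw [hi, ← mul_assoc] at hi'
      rw [mul_inv_rev, inv_inv]
      exact hi'

theorem t_low5 : P_low5 := by
  intro G _ hT
  classical
  obtain ⟨k, P, t, S, hk, hP, hS1, hS2⟩ := hT
  have hdis : ∀ x i j, x ∈ P i → x ∈ P j → i = j := by
    intro x i j hi hj
    exact (hP x).unique hi hj
  have h1 : ∀ x : G, ∃ i, i ∈ S ∧ (t i)⁻¹ * x ∈ P i := fun x => (hS1 x).exists
  have h2 : ∀ x : G, ∃ i, i ∉ S ∧ (t i)⁻¹ * x ∈ P i := fun x => (hS2 x).exists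
  have hc1 : 2 ≤ S.card := two_le P t S hdis h1 h2
  have hc2 : 2 ≤ Sᶜ.card := two_le P t Sᶜ hdis
    (fun x => by
      obtain ⟨i, hi, hi'⟩ := h2 x
      exact ⟨i, Finset.mem_compl.2 hi, hi'⟩)
    (fun x => by
      obtain ⟨i, hi, hi'⟩ := h1 x
      exact ⟨i, fun h => (Finset.mem_compl.1 h) hi, hi'⟩)
  have hc3 : S.card + Sᶜ.card = k := by
    rw [Finset.card_add_card_compl, Fintype.card_fin]
  have hS : S.card = 2 := by omega
  have hSc : Sᶜ.card = 2 := by omega
  obtain ⟨a, b, hab, hSab⟩ := Finset.card_eq_two.1 hS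
  obtain ⟨c, d, hcd, hScd⟩ := Finset.card_eq_two.1 hSc
  have haS : a ∈ S := by rw [hSab]; simp
  have hbS : b ∈ S := by rw [hSab]; simp
  have hcS : c ∉ S := by rw [← Finset.mem_compl, hScd]; simp
  have hdS : d ∉ S := by rw [← Finset.mem_compl, hScd]; simp
  have hac : a ≠ c := fun h => hcS (h ▸ haS)
  have had : a ≠ d := fun h => hdS (h ▸ haS)
  have hbc : b ≠ c := fun h => hcS (h ▸ hbS)
  have hbd : b ≠ d := fun h => hdS (h ▸ hbS)
  have h1' : ∀ x : G, ∃ i, (i = a ∨ i = b) ∧ (t i)⁻¹ * x ∈ P i := by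
    intro x
    obtain ⟨i, hi, hi'⟩ := h1 x
    rw [hSab, Finset.mem_insert, Finset.mem_singleton] at hi
    exact ⟨i, hi, hi'⟩
  have h2' : ∀ x : G, ∃ i, (i = c ∨ i = d) ∧ (t i)⁻¹ * x ∈ P i := by
    intro x
    obtain ⟨i, hi, hi'⟩ := h2 x
    rw [← Finset.mem_compl, hScd, Finset.mem_insert, Finset.mem_singleton] at hi
    exact ⟨i, hi, hi'⟩
  obtain ⟨g1, g2⟩ := half P t a b h1'
  obtain ⟨k1, k2⟩ := half P t c d h2'
  have hDis : ∀ i j, i ≠ j → Disjoint (P i) (P j) := by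
    intro i j hij
    rw [Set.disjoint_left]
    intro x hi hj
    exact hij (hdis x i j hi hj)
  have hPa : (P a).Nonempty := by
    by_contra hne
    rw [Set.not_nonempty_iff_eq_empty] at hne
    obtain ⟨j, hj, hj'⟩ := h2 1
    have h3 := g2 (((t a)⁻¹ * t b) * ((t j)⁻¹ * 1)) (by rw [hne]; exact fun h => h)
    rw [inv_mul_cancel_left] at h3
    exact hj ((hdis _ _ _ hj' h3).symm ▸ hbS)
  have hPc : (P c).Nonempty := by
    by_contra hne
    rw [Set.not_nonempty_iff_eq_empty] at hne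
    obtain ⟨j, hj, hj'⟩ := h1 1
    have h3 := k2 (((t c)⁻¹ * t d) * ((t j)⁻¹ * 1)) (by rw [hne]; exact fun h => h)
    rw [inv_mul_cancel_left] at h3
    exact hdS ((hdis _ _ _ hj' h3) ▸ hj)
  let α : Fin 2 → G := ![(t a)⁻¹ * t b, (t c)⁻¹ * t d]
  let X : Fin 2 → Set G := ![P a, P c]
  let Y : Fin 2 → Set G := ![P b, P d]
  refine ⟨FreeGroup.lift α, ?_⟩
  apply FreeGroup.injective_lift_of_ping_pong α X Y
  · intro i
    fin_cases i
    · exact hPa
    · exact hPc
  · intro i j hij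
    fin_cases i <;> fin_cases j
    · exact absurd rfl hij
    · exact hDis a c hac
    · exact hDis c a hac.symm
    · exact absurd rfl hij
  · intro i j hij
    fin_cases i <;> fin_cases j
    · exact absurd rfl hij
    · exact hDis b d hbd
    · exact hDis d b hbd.symm
    · exact absurd rfl hij
  · intro i j
    fin_cases i <;> fin_cases j
    · exact hDis a b hab
    · exact hDis a d had
    · exact hDis c b hbc.symm
    · exact hDis c d hcd
  · intro i
    fin_cases i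
    · rintro _ ⟨x, hx, rfl⟩
      exact g1 x hx
    · rintro _ ⟨x, hx, rfl⟩
      exact k1 x hx
  · intro i
    fin_cases i
    · rintro _ ⟨x, hx, rfl⟩
      exact g2 x hx
    · rintro _ ⟨x, hx, rfl⟩
      exact k2 x hx

end Pool.Agent.Run7.h305.TN
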